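import Pool.Agent.Q282.UK.Exact

/-!
# Completions, products and cycles of degree zero, as functors
-/

set_option autoImplicit false

open CategoryTheory Limits

namespace Pool.Agent.Q282.UK

universe v u w

section generic

variable {A : Type u} [Category.{v} A] [Abelian A]

/-- The quotient `G / n! G`. -/
noncomputable def modFac (G : A) (n : ℕ) : A := cokernel (n.factorial • 𝟙 G)

/-- the projection `G → G / n! G` -/
noncomputable def projFac (G : A) (n : ℕ) : G ⟶ modFac G n := cokernel.π (n.factorial • 𝟙 G)

instance (G : A) (n : ℕ) : Epi (projFac G n) :=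
  (inferInstance : Epi (cokernel.π (n.factorial • 𝟙 G)))

lemma fac_zero (G : A) (n : ℕ) : ((n + 1).factorial • 𝟙 G) ≫ projFac G n = 0 := by
  have h3 : n.factorial • cokernel.π (n.factorial • 𝟙 G) = 0 := by
    have h4 := cokernel.condition (n.factorial • 𝟙 G)
    rw [Preadditive.nsmul_comp, Category.id_comp] at h4
    exact h4
  rw [Nat.factorial_succ, mul_smul, Preadditive.nsmul_comp, Preadditive.nsmul_comp,
    Category.id_comp]
  exact (congrArg (fun t : G ⟶ modFac G n => (n + 1) • t) h3).trans (smul_zero (n + 1))

/-- The map `G / (n + 1)! G → G / n! G`. -/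
noncomputable def transFac (G : A) (n : ℕ) : modFac G (n + 1) ⟶ modFac G n :=
  cokernel.desc _ (projFac G n) (fac_zero G n)

/-- The map `G / n! G → H / n! H` given by `a : G → H`. -/
noncomputable def facMap {G H : A} (a : G ⟶ H) (n : ℕ) : modFac G n ⟶ modFac H n :=
  cokernel.map _ _ a a (by
    rw [Preadditive.nsmul_comp, Preadditive.comp_nsmul, Category.id_comp, Category.comp_id])

@[reassoc]
lemma proj_fac {G H : A} (a : G ⟶ H) (n : ℕ) :
    projFac G n ≫ facMap a n = a ≫ projFac H n := cokernel.π_desc _ _ _

@[reassoc]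
lemma proj_trans (G : A) (n : ℕ) :
    projFac G (n + 1) ≫ transFac G n = projFac G n := cokernel.π_desc _ _ _

lemma facMap_trans {G H : A} (a : G ⟶ H) (n : ℕ) :
    facMap a (n + 1) ≫ transFac H n = transFac G n ≫ facMap a n := by
  rw [← cancel_epi (projFac G (n + 1)), proj_fac_assoc, proj_trans, proj_trans_assoc, proj_fac]

/-- The image of the kernel of `d : F → G` in the cokernel of `n : N → F`. -/
noncomputable def kerMod {F G N : A} (d : F ⟶ G) (n : N ⟶ F) : A :=
  image (kernel.ι d ≫ cokernel.π n)

/-- The map from the kernel of `d : F → G` to `kerMod d n`. -/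
noncomputable def toKerMod {F G N : A} (d : F ⟶ G) (n : N ⟶ F) : kernel d ⟶ kerMod d n :=
  factorThruImage (kernel.ι d ≫ cokernel.π n)

variable [HasLimitsOfShape (Discrete ℕ) A]

/-- The map from the product of the `G / n! G` to itself which takes the family `x` to the family of the
`x n` minus the image of `x (n + 1)`. -/
noncomputable def shiftFac (G : A) : ∏ᶜ modFac G ⟶ ∏ᶜ modFac G :=
  Pi.lift fun n => Pi.π (modFac G) n - Pi.π (modFac G) (n + 1) ≫ transFac G n

/-- The completion `lim G / n G` (`= lim G / n! G`) of `G`: the families of elements of the `G / n! G`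
which are compatible with the maps `G / (n + 1)! G → G / n! G`. -/
noncomputable def compl (G : A) : A := kernel (shiftFac G)

lemma shiftFac_comm {G H : A} (a : G ⟶ H) :
    shiftFac G ≫ Limits.Pi.map (facMap a) = Limits.Pi.map (facMap a) ≫ shiftFac H := by
  refine Pi.hom_ext _ _ fun n => ?_
  unfold shiftFac
  rw [Category.assoc, Category.assoc, Pi.map_π, Pi.lift_π, Pi.lift_π_assoc, Preadditive.comp_sub,
    Preadditive.sub_comp, Pi.map_π, Category.assoc, Pi.map_π_assoc, facMap_trans]

/-- The map of the completions given by `a : G → H`. -/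
noncomputable def complMap {G H : A} (a : G ⟶ H) : compl G ⟶ compl H :=
  kernel.map _ _ (Limits.Pi.map (facMap a)) (Limits.Pi.map (facMap a)) (shiftFac_comm a)

end generic

section functors

variable {C : Type u} [Category.{v} C]

instance lim_nat : HasLimitsOfShape (Discrete ℕ) (C ⥤ ModuleCat.{w} ℤ) :=
  functorCategoryHasLimitsOfShape

lemma prod_ext {Ω : Type} (G : Ω → (C ⥤ ModuleCat.{w} ℤ)) (Y : C) {A : ModuleCat.{w} ℤ}
    (a b : A ⟶ (∏ᶜ G).obj Y) (h : ∀ v, a ≫ (Pi.π G v).app Y = b ≫ (Pi.π G v).app Y) : a = b := by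
  refine (isLimitOfPreserves ((evaluation C (ModuleCat.{w} ℤ)).obj Y)
    (limit.isLimit (Discrete.functor G))).hom_ext fun j => ?_
  exact h j.as

/-- A product of additive functors is additive. -/
lemma prod_additive [Preadditive C] {Ω : Type} (G : Ω → (C ⥤ ModuleCat.{w} ℤ))
    (h : ∀ v, (G v).Additive) : (∏ᶜ G).Additive where
  map_add {X Y f g} := by
    refine prod_ext G Y _ _ fun v => ?_
    have := h v
    rw [Preadditive.add_comp, (Pi.π G v).naturality, (Pi.π G v).naturality,
      (Pi.π G v).naturality, (G v).map_add, Preadditive.comp_add]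

lemma compl_additive [Preadditive C] (G : C ⥤ ModuleCat.{w} ℤ) (h : G.Additive) :
    (compl G).Additive := by
  have h1 : ∀ n, (modFac G n).Additive := fun n =>
    quot_additive (G := modFac G n) (projFac G n)
      (fun M => (inferInstance : Epi ((cokernel.π (n.factorial • 𝟙 G)).app M))) h
  exact sub_additive (F := compl G) (kernel.ι (shiftFac G))
    (fun M => (inferInstance : Mono ((kernel.ι (shiftFac G)).app M))) (prod_additive _ h1)

lemma kerMod_additive [Preadditive C] {F G N : C ⥤ ModuleCat.{w} ℤ} (d : F ⟶ G) (n : N ⟶ F)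
    (h : F.Additive) : (kerMod d n).Additive := by
  have h1 : (cokernel n).Additive := quot_additive (cokernel.π n) (fun M => inferInstance) h
  exact sub_additive (F := kerMod d n) (image.ι (kernel.ι d ≫ cokernel.π n))
    (fun M => (inferInstance : Mono ((image.ι (kernel.ι d ≫ cokernel.π n)).app M))) h1

end functors

end Pool.Agent.Q282.UK
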