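import Pool.Agent.Q282.UM.Defs

/-!
# Weight complexes of schemes with values in an additive category of motives
-/

set_option autoImplicit false

open CategoryTheory Limits AlgebraicGeometry Pool.Agent.Y116.UV Pool.Agent.Q282.UM

namespace Pool.Agent.Q282.UK

universe v u

section

variable (C : Type u) [Category.{v} C] [Preadditive C]

/-- The homotopy category of the complexes in the additive category `C`. -/
abbrev HK : Type (max u v) := HomotopyCategory C (ComplexShape.up ℤ)

variable {C}

/-- The object of the homotopy category given by a complex. -/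
abbrev toHK (K : CochainComplex C ℤ) : HK C := (HomotopyCategory.quotient C (ComplexShape.up ℤ)).obj K

/-- The object of the homotopy category given by the object `M` in degree zero. -/
noncomputable def inZero [HasZeroObject C] (M : C) : HK C :=
  toHK ((HomologicalComplex.single C (ComplexShape.up ℤ) 0).obj M)

/-- The functor `F` applied to the terms of a complex. -/
noncomputable def onHK {C' : Type*} [Category C'] [Preadditive C'] (F : C ⥤ C') [F.Additive]
    (K : HK C) : HK C' := (F.mapHomotopyCategory (ComplexShape.up ℤ)).obj K

end

/-- `h X` is the motive of the smooth projective scheme `X` over `k` (an object of the additive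
category `C`, for instance the category of Chow motives), `tw n` is the twist by the Tate object
`1(n)`, and `W X`, for a scheme `X` of finite type over `k`, is the weight complex of `X` (with compact
supports, Gillet and Soulé). -/
structure Weights (k : Type) [Field k] (C : Type u) [Category.{v} C] [Preadditive C] where
  h : Sch k → C
  tw : ℤ → C ⥤ C
  additive : ∀ n, (tw n).Additive
  W : Sch k → HK C

instance {k : Type} [Field k] {C : Type u} [Category.{v} C] [Preadditive C] (D : Weights k C)
    (n : ℤ) : (D.tw n).Additive := D.additive n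

/-- There is a distinguished triangle `K → L → M → K[1]`. -/
def IsDistinguished {C : Type u} [Category.{v} C] [Preadditive C] [HasZeroObject C]
    [HasBinaryBiproducts C] (K L M : HK C) : Prop :=
  ∃ (a : K ⟶ L) (b : L ⟶ M) (d : M ⟶ K⟦(1 : ℤ)⟧),
    Pretriangulated.Triangle.mk a b d ∈ Pretriangulated.distinguishedTriangles (C := HK C)

/-- `M` is a direct summand of a finite sum of motives `h(Y)(m)` of smooth projective schemes `Y` of
dimension at most `N`. -/
def IsPiece {k : Type} [Field k] {C : Type u} [Category.{v} C] [Preadditive C]
    [HasFiniteBiproducts C] (D : Weights k C) (N : ℕ) (M : C) : Prop :=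
  ∃ (r : ℕ) (Y : Fin r → Sch k) (m : Fin r → ℤ),
    (∀ i, IsSmoothProjective (Y i) ∧ topologicalKrullDim (Y i).left ≤ N) ∧
    IsSummand M (⨁ fun i => (D.tw (m i)).obj (D.h (Y i)))

/-- The standard properties of the weight complexes.

* `tw_zero`, `tw_add`: the Tate twists;
* `iso`: isomorphic schemes have isomorphic weight complexes (in the homotopy category);
* `triangle`: the triangle `W U → W X → W Z → (W U)[1]` for a closed subscheme `Z` of `X` and its
  complement `U`;
* `bundle`: the weight complex of the affine bundle `Spec B[w_1, …, w_m] / (∑ f_l w_l - 1) → U` with fibre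
  `𝔸^(m-1)`, where `U` is the complement of `f = 0` in `Spec B`, is the one of `U` twisted by `1 - m`;
* `torus`: `W(X)(-1)` is a direct summand of `W(X × 𝔾_m) = W(X)(-1) ⊕ W(X)[-1]`;
* `projective`: `W(X)` is the motive `h(X)` in degree zero if `X` is smooth and projective;
* `pieces`: `W(X)` is given by a complex whose terms are direct summands of sums of motives `h(Y)(m)` of
  smooth projective schemes `Y` of dimension at most the dimension of `X`. -/
structure IsWeights {k : Type} [Field k] {C : Type u} [Category.{v} C] [Preadditive C]
    [HasZeroObject C] [HasBinaryBiproducts C] [HasFiniteBiproducts C] (D : Weights k C) : Prop where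
  tw_zero : Nonempty (D.tw 0 ≅ 𝟭 C)
  tw_add : ∀ m n : ℤ, Nonempty (D.tw (m + n) ≅ D.tw m ⋙ D.tw n)
  iso : ∀ {X Y : Sch k}, FT True X → Nonempty (X ≅ Y) → Nonempty (D.W X ≅ D.W Y)
  triangle : ∀ {Z X U : Sch k} (i : Z ⟶ X) (j : U ⟶ X), FT True X → IsTriple i j →
    IsDistinguished (D.W U) (D.W X) (D.W Z)
  bundle : ∀ (B : Type) [CommRing B] [Algebra k B] [Algebra.FiniteType k B] (m : ℕ)
    (f : Fin m → B) (U : Sch k) (j : U ⟶ aff k B), IsComplementOf f j →
    Nonempty (D.W (jouS f) ≅ onHK (D.tw (1 - m)) (D.W U))
  torus : ∀ (B : Type) [CommRing B] [Algebra k B] [Algebra.FiniteType k B],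
    IsSummand (onHK (D.tw (-1)) (D.W (aff k B))) (D.W (torS k B))
  projective : ∀ X : Sch k, IsSmoothProjective X → Nonempty (D.W X ≅ inZero (D.h X))
  pieces : ∀ X : Sch k, FT True X → ∀ N : ℕ, topologicalKrullDim X.left ≤ N →
    ∃ K : CochainComplex C ℤ, Nonempty (D.W X ≅ toHK K) ∧ ∀ i, IsPiece D N (K.X i)

end Pool.Agent.Q282.UK
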