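import Pool.Agent.Q282.UK.Inst
import Pool.Agent.Q282.UK.Bil

/-!
# Weight complexes and systems of bilinear equations
-/

set_option autoImplicit false

open CategoryTheory Limits AlgebraicGeometry MvPolynomial Pool.Agent.Y116.UV Pool.Agent.Q282.UM

namespace Pool.Agent.Q282.UK

universe v u

/-- `M X` is the motive of the smooth projective scheme `X` over `k` (an object of the additive
category `C`, for instance the category of effective Chow motives) and `W X`, for a scheme `X` of finite
type over `k`, is the weight complex of `X` (with compact supports, Gillet and Soulé). -/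
structure Complexes (k : Type) [Field k] (C : Type u) [Category.{v} C] [Preadditive C] where
  M : Sch k → C
  W : Sch k → HK C

/-- `M` is a direct summand of a finite sum of motives `M(Y)` of smooth projective schemes `Y`. -/
def IsPart {k : Type} [Field k] {C : Type u} [Category.{v} C] [Preadditive C]
    [HasFiniteBiproducts C] (D : Complexes k C) (M : C) : Prop :=
  ∃ (r : ℕ) (Y : Fin r → Sch k), (∀ i, IsSmoothProjective (Y i)) ∧
    IsSummand M (⨁ fun i => D.M (Y i))

/-- The standard properties of the weight complexes, in the covariant form.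

* `iso`: isomorphic schemes have isomorphic weight complexes (in the homotopy category);
* `triangle`: the triangle `W Z → W X → W U → (W Z)[1]` for a closed subscheme `Z` of `X` and its
  complement `U`;
* `torus`: `W(X)[1]` is a direct summand of `W(X × 𝔾_m) = W(X)(1) ⊕ W(X)[1]`;
* `projective`: `W(X)` is the motive `M(X)` in degree zero if `X` is smooth and projective;
* `pieces`: `W(X)` is given by a complex whose terms are direct summands of sums of motives `M(Y)` of
  smooth projective schemes `Y`. -/
structure IsCovariant {k : Type} [Field k] {C : Type u} [Category.{v} C] [Preadditive C]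
    [HasZeroObject C] [HasBinaryBiproducts C] [HasFiniteBiproducts C] (D : Complexes k C) :
    Prop where
  iso : ∀ {X Y : Sch k}, FT True X → Nonempty (X ≅ Y) → Nonempty (D.W X ≅ D.W Y)
  triangle : ∀ {Z X U : Sch k} (i : Z ⟶ X) (j : U ⟶ X), FT True X → IsTriple i j →
    IsDistinguished (D.W Z) (D.W X) (D.W U)
  torus : ∀ (B : Type) [CommRing B] [Algebra k B] [Algebra.FiniteType k B],
    IsSummand ((D.W (aff k B))⟦(1 : ℤ)⟧) (D.W (torS k B))
  projective : ∀ X : Sch k, IsSmoothProjective X → Nonempty (D.W X ≅ inZero (D.M X))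
  pieces : ∀ X : Sch k, FT True X →
    ∃ K : CochainComplex C ℤ, Nonempty (D.W X ≅ toHK K) ∧ ∀ i, IsPart D (K.X i)

/-- The standard properties of the weight complexes, in the contravariant form (with the triangle
`W U → W X → W Z → (W U)[1]`, and with the direct summand `W(X)[-1]` of
`W(X × 𝔾_m) = W(X)(-1) ⊕ W(X)[-1]`). -/
structure IsContravariant {k : Type} [Field k] {C : Type u} [Category.{v} C] [Preadditive C]
    [HasZeroObject C] [HasBinaryBiproducts C] [HasFiniteBiproducts C] (D : Complexes k C) :
    Prop where
  iso : ∀ {X Y : Sch k}, FT True X → Nonempty (X ≅ Y) → Nonempty (D.W X ≅ D.W Y)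
  triangle : ∀ {Z X U : Sch k} (i : Z ⟶ X) (j : U ⟶ X), FT True X → IsTriple i j →
    IsDistinguished (D.W U) (D.W X) (D.W Z)
  torus : ∀ (B : Type) [CommRing B] [Algebra k B] [Algebra.FiniteType k B],
    IsSummand ((D.W (aff k B))⟦(-1 : ℤ)⟧) (D.W (torS k B))
  projective : ∀ X : Sch k, IsSmoothProjective X → Nonempty (D.W X ≅ inZero (D.M X))
  pieces : ∀ X : Sch k, FT True X →
    ∃ K : CochainComplex C ℤ, Nonempty (D.W X ≅ toHK K) ∧ ∀ i, IsPart D (K.X i)

/-- The motives of all smooth projective schemes have the property `Q`. -/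
def ForMotives {k : Type} [Field k] {C : Type u} [Category.{v} C] [Preadditive C]
    (D : Complexes k C) (Q : C → Prop) : Prop :=
  ∀ X : Sch k, IsSmoothProjective X → Q (D.M X)

/-- The weight complexes of all systems of bilinear equations `∑ T i j l x_i y_j = 0` over `k` have the
property `P`. -/
def ForSystems {k : Type} [Field k] {C : Type u} [Category.{v} C] [Preadditive C]
    (D : Complexes k C) (P : HK C → Prop) : Prop :=
  ∀ (a b c : ℕ) (T : Fin a → Fin b → Fin c → k), P (D.W (bilS T))

/-- The same for the systems whose coefficients are `0` or `1`. -/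
def ForBinarySystems {k : Type} [Field k] {C : Type u} [Category.{v} C] [Preadditive C]
    (D : Complexes k C) (P : HK C → Prop) : Prop :=
  ∀ (a b c : ℕ) (T : Fin a → Fin b → Fin c → k), (∀ i j l, T i j l = 0 ∨ T i j l = 1) →
    P (D.W (bilS T))

section

variable {C : Type u} [Category.{v} C] [Preadditive C] [HasZeroObject C] [HasBinaryBiproducts C]
  [HasFiniteBiproducts C] {k : Type} [Field k] {D : Complexes k C} {Q : C → Prop} {P : HK C → Prop}

lemma clo_cov (hD : IsCovariant D) (hP : IsExtension Q P) :
    Clo True fun X : Sch k => P (D.W X) where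
  iso hX e h := hP.iso (hD.iso hX e) h
  total i j h ht hZ hU := tri_mid hP (hD.triangle i j h ht) hZ hU
  opened i j h ht hZ hX := tri_right hP (hD.triangle i j h ht) hZ hX
  torus A _ _ _ h := unshift hP (hP.summand (hD.torus A) h)

lemma clo_con (hD : IsContravariant D) (hP : IsExtension Q P) :
    Clo True fun X : Sch k => P (D.W X) where
  iso hX e h := hP.iso (hD.iso hX e) h
  total i j h ht hZ hU := tri_mid hP (hD.triangle i j h ht) hU hZ
  opened i j h ht hZ hX := tri_left hP (hD.triangle i j h ht) hX hZ
  torus A _ _ _ h := hP.iso ⟨shiftNegShift (D.W (aff k A)) (1 : ℤ)⟩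
    (hP.shift _ 1 (hP.summand (hD.torus A) h))

lemma of_pieces (hP : IsExtension Q P) (h : ForMotives D Q) {X : Sch k}
    (hX : ∃ K : CochainComplex C ℤ, Nonempty (D.W X ≅ toHK K) ∧ ∀ i, IsPart D (K.X i)) :
    P (D.W X) := by
  obtain ⟨K, ⟨e⟩, hK⟩ := hX
  refine hP.iso ⟨e.symm⟩ (hP.of_terms _ fun i => ?_)
  obtain ⟨r, Y, h1, h2⟩ := hK i
  exact hP.object_summand h2 (hP.object_sum _ fun i => h (Y i) (h1 i))

lemma core (hP : IsExtension Q P) (hc : Clo True fun X : Sch k => P (D.W X))
    (hp : ∀ X : Sch k, IsSmoothProjective X → Nonempty (D.W X ≅ inZero (D.M X)))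
    (ht : ∀ X : Sch k, FT True X →
      ∃ K : CochainComplex C ℤ, Nonempty (D.W X ≅ toHK K) ∧ ∀ i, IsPart D (K.X i))
    {S : Set k} (h0 : 0 ∈ S) (h1 : 1 ∈ S) (hS : Presents S) :
    ForMotives D Q ↔ ∀ (a b c : ℕ) (T : Fin a → Fin b → Fin c → k), (∀ i j l, T i j l ∈ S) →
      P (D.W (bilS T)) := by
  constructor
  · intro h a b c T _
    exact of_pieces hP h (ht _ (ft_aff True))
  · intro h X hX
    exact hP.to_object _ (hP.iso (hp X hX) (clo_universal hc h0 h1 h hS X (ft_projective hX)))

/-- All systems, covariant form. -/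
theorem systems_cov (hD : IsCovariant D) (hP : IsExtension Q P) :
    ForMotives D Q ↔ ForSystems D P := by
  rw [core hP (clo_cov hD hP) hD.projective hD.pieces (Set.mem_univ 0) (Set.mem_univ 1)
    presents_univ]
  exact ⟨fun h a b c T => h a b c T fun _ _ _ => trivial, fun h a b c T _ => h a b c T⟩

/-- All systems, contravariant form. -/
theorem systems_con (hD : IsContravariant D) (hP : IsExtension Q P) :
    ForMotives D Q ↔ ForSystems D P := by
  rw [core hP (clo_con hD hP) hD.projective hD.pieces (Set.mem_univ 0) (Set.mem_univ 1)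
    presents_univ]
  exact ⟨fun h a b c T => h a b c T fun _ _ _ => trivial, fun h a b c T _ => h a b c T⟩

/-- Binary systems, covariant form. -/
theorem binary_cov (hk : Presents ({0, 1} : Set k)) (hD : IsCovariant D) (hP : IsExtension Q P) :
    ForMotives D Q ↔ ForBinarySystems D P :=
  core hP (clo_cov hD hP) hD.projective hD.pieces (Or.inl rfl) (Or.inr rfl) hk

/-- Binary systems, contravariant form. -/
theorem binary_con (hk : Presents ({0, 1} : Set k)) (hD : IsContravariant D)
    (hP : IsExtension Q P) : ForMotives D Q ↔ ForBinarySystems D P :=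
  core hP (clo_con hD hP) hD.projective hD.pieces (Or.inl rfl) (Or.inr rfl) hk

end

end Pool.Agent.Q282.UK
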