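import Pool.Agent.Q282.UK.Eff

/-!
# Vanishing and exactness for weight complexes
-/

set_option autoImplicit false

open CategoryTheory Limits

namespace Pool.Agent.Q282.UK

universe v u v' u'

section

variable {C : Type u} [Category.{v} C] [Preadditive C] {B : Type u'} [Category.{v'} B] [Abelian B]

/-- The sequence `F(M) → G(M) → H(M)` is exact, for a sequence `S : F → G → H` of functors. -/
def ExactOn (S : ShortComplex (C ⥤ B)) (M : C) : Prop :=
  (S.map ((evaluation C B).obj M)).Exact

/-- The functor which takes `M` to the homology of `F(M) → G(M) → H(M)`, for a sequence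
`S : F → G → H` of functors. -/
noncomputable def mid (S : ShortComplex (C ⥤ B)) : C ⥤ B := S.homology

omit [Preadditive C] in
lemma exactOn_iff (S : ShortComplex (C ⥤ B)) (M : C) : ExactOn S M ↔ IsZero ((mid S).obj M) := by
  unfold ExactOn mid
  rw [ShortComplex.exact_iff_isZero_homology]
  exact (S.mapHomologyIso ((evaluation C B).obj M)).isZero_iff

lemma sub_additive {F G : C ⥤ B} (ι : F ⟶ G) (hι : ∀ M, Mono (ι.app M)) (hG : G.Additive) :
    F.Additive where
  map_add {X Y f g} := by
    have := hι Y
    rw [← cancel_mono (ι.app Y), Preadditive.add_comp, ι.naturality, ι.naturality, ι.naturality,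
      G.map_add, Preadditive.comp_add]

lemma quot_additive {F G : C ⥤ B} (π : F ⟶ G) (hπ : ∀ M, Epi (π.app M)) (hF : F.Additive) :
    G.Additive where
  map_add {X Y f g} := by
    have := hπ X
    rw [← cancel_epi (π.app X), Preadditive.comp_add, ← π.naturality, ← π.naturality,
      ← π.naturality, F.map_add, Preadditive.add_comp]

lemma mid_additive (S : ShortComplex (C ⥤ B)) (h : S.X₂.Additive) : (mid S).Additive := by
  have h1 : S.cycles.Additive := sub_additive S.iCycles (fun M => inferInstance) h
  have h2 : ∀ M, Epi (S.homologyπ.app M) := fun M => inferInstance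
  exact quot_additive (G := S.homology) S.homologyπ h2 h1

/-- The cohomology of the complex `E(K)` vanishes, where `E` is the functor which takes `M` to the
homology of `F(M) → G(M) → H(M)`. -/
def ExactK (S : ShortComplex (C ⥤ B)) (h : S.X₂.Additive) (K : HK C) : Prop :=
  haveI := mid_additive S h
  ∀ n : ℤ, IsZero (coh (mid S) n K)

/-- The cohomology objects `Hⁿ(F(K))` vanish for all `n`. -/
def ZeroK (F : C ⥤ B) (h : F.Additive) (K : HK C) : Prop := ∀ n : ℤ, IsZero (coh F n K)

variable [HasZeroObject C] [HasBinaryBiproducts C] [HasFiniteBiproducts C]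

theorem ext_zero (F : C ⥤ B) (h : F.Additive) :
    IsExtension (fun M : C => IsZero (F.obj M)) (ZeroK F h) :=
  ext_serre F (IsZero (C := B))

theorem ext_exact (S : ShortComplex (C ⥤ B)) (h : S.X₂.Additive) :
    IsExtension (ExactOn S) (ExactK S h) := by
  have h1 : ExactOn S = fun M : C => IsZero ((mid S).obj M) :=
    funext fun M => propext (exactOn_iff S M)
  rw [h1]
  exact ext_zero (mid S) (mid_additive S h)

end

end Pool.Agent.Q282.UK
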