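import Pool.Agent.Q282.UK.Exact

/-!
# Subfunctors and filtrations of the Bloch-Beilinson type
-/

set_option autoImplicit false

open CategoryTheory Limits AlgebraicGeometry Pool.Agent.Y116.UV Pool.Agent.Q282.UM

namespace Pool.Agent.Q282.UK

universe v u w v' u'

section

variable {C : Type u} [Category.{v} C] {K : Type*} [Ring K]

/-- A family of submodules of the modules `F(M)` which is stable under the morphisms. -/
structure SubF (F : C ⥤ ModuleCat.{w} K) where
  sub : ∀ M : C, Submodule K (F.obj M)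
  map : ∀ {M M' : C} (g : M ⟶ M') (y : F.obj M), y ∈ sub M → (F.map g).hom y ∈ sub M'

/-- The functor given by such a family. -/
def SubF.functor {F : C ⥤ ModuleCat.{w} K} (S : SubF F) : C ⥤ ModuleCat.{w} K where
  obj M := ModuleCat.of K (S.sub M)
  map {M M'} g := ModuleCat.ofHom ((F.map g).hom.restrict (p := S.sub M) (q := S.sub M') (S.map g))
  map_id M := by
    refine ModuleCat.hom_ext (LinearMap.ext fun x => Subtype.ext ?_)
    change (F.map (𝟙 M)).hom x.1 = x.1
    rw [F.map_id]
    rfl
  map_comp {M M' M''} g g' := by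
    refine ModuleCat.hom_ext (LinearMap.ext fun x => Subtype.ext ?_)
    change (F.map (g ≫ g')).hom x.1 = (F.map g').hom ((F.map g).hom x.1)
    rw [F.map_comp]
    rfl

/-- The inclusion. -/
def SubF.incl {F : C ⥤ ModuleCat.{w} K} (S : SubF F) : S.functor ⟶ F where
  app M := ModuleCat.ofHom (S.sub M).subtype
  naturality _ _ _ := rfl

lemma SubF.zero_iff {F : C ⥤ ModuleCat.{w} K} (S : SubF F) (M : C) :
    IsZero (S.functor.obj M) ↔ S.sub M = ⊥ := by
  rw [ModuleCat.isZero_iff_subsingleton]
  exact Submodule.subsingleton_iff_eq_bot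

lemma SubF.additive [Preadditive C] {F : C ⥤ ModuleCat.{w} K} (S : SubF F) (hF : F.Additive) :
    S.functor.Additive := by
  refine sub_additive S.incl (fun M => ?_) hF
  rw [ModuleCat.mono_iff_injective]
  exact Subtype.val_injective

/-- The whole functor. -/
def topF (F : C ⥤ ModuleCat.{w} K) : SubF F where
  sub _ := ⊤
  map _ _ _ := trivial

/-- The kernel of a morphism of functors. -/
def kerF {F G : C ⥤ ModuleCat.{w} K} (η : F ⟶ G) : SubF F where
  sub M := LinearMap.ker (η.app M).hom
  map {M M'} g y hy := by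
    rw [LinearMap.mem_ker] at hy ⊢
    have h1 := congrArg (fun φ => φ.hom y) (η.naturality g)
    change (η.app M').hom ((F.map g).hom y) = (G.map g).hom ((η.app M).hom y) at h1
    rw [h1, hy, map_zero]

/-- The kernel of a morphism which is defined on a subfunctor. -/
def kerOn {F G : C ⥤ ModuleCat.{w} K} (S : SubF F) (η : S.functor ⟶ G) : SubF F where
  sub M := ((kerF η).sub M).map (S.sub M).subtype
  map {M M'} g := by
    rintro _ ⟨y, hy, rfl⟩
    exact ⟨(S.functor.map g).hom y, (kerF η).map g y hy, rfl⟩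

lemma kerOn_le {F G : C ⥤ ModuleCat.{w} K} (S : SubF F) (η : S.functor ⟶ G) (M : C) :
    (kerOn S η).sub M ≤ S.sub M := by
  rintro _ ⟨y, _, rfl⟩
  exact y.2

variable {B : Type u'} [Category.{v'} B] [HasZeroMorphisms B]

/-- The subspace of `F(M)` spanned by the elements `F(f)(x)`, `x ∈ S(N)`, for the morphisms
`f : N ⟶ M` with `N` in `P` and `H(f) = 0`. -/
def nextF (P : C → Prop) (H : C ⥤ B) {F : C ⥤ ModuleCat.{w} K} (S : SubF F) : SubF F where
  sub M := Submodule.span K
    {y | ∃ (N : C) (f : N ⟶ M), P N ∧ H.map f = 0 ∧ ∃ x ∈ S.sub N, (F.map f).hom x = y}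
  map {M M'} g y hy := by
    have h : Submodule.span K
        {y | ∃ (N : C) (f : N ⟶ M), P N ∧ H.map f = 0 ∧ ∃ x ∈ S.sub N, (F.map f).hom x = y} ≤
        (Submodule.span K {y | ∃ (N : C) (f : N ⟶ M'), P N ∧ H.map f = 0 ∧
          ∃ x ∈ S.sub N, (F.map f).hom x = y}).comap (F.map g).hom := by
      refine Submodule.span_le.mpr ?_
      rintro _ ⟨N, f, hN, hf, x, hx, rfl⟩
      refine Submodule.subset_span ⟨N, f ≫ g, hN, ?_, x, hx, ?_⟩
      · rw [H.map_comp, hf, zero_comp]
      · rw [F.map_comp]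
        rfl
    exact h hy

lemma nextF_le (P : C → Prop) (H : C ⥤ B) {F : C ⥤ ModuleCat.{w} K} (S : SubF F) (M : C) :
    (nextF P H S).sub M ≤ S.sub M := by
  refine Submodule.span_le.mpr ?_
  rintro _ ⟨N, f, _, _, x, hx, rfl⟩
  exact S.map f x hx

end

end Pool.Agent.Q282.UK
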