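import Pool.Agent.Q282.UK.Main

/-!
# Properties of complexes given by cohomology
-/

set_option autoImplicit false

open CategoryTheory Limits

namespace Pool.Agent.Q282.UK

universe v u v' u'

section

variable {C : Type u} [Category.{v} C] [Preadditive C] [HasZeroObject C] [HasBinaryBiproducts C]
  {B : Type u'} [Category.{v'} B] [Abelian B]

/-- The functor `K ↦ H⁰(F(K))`. -/
noncomputable def coh0 (F : C ⥤ B) [F.Additive] : HK C ⥤ B :=
  F.mapHomotopyCategory (ComplexShape.up ℤ) ⋙
    HomotopyCategory.homologyFunctor B (ComplexShape.up ℤ) 0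

/-- The cohomology `Hⁿ(F(K)) = H⁰(F(K[n]))` of the complex `F(K)`. -/
noncomputable def coh (F : C ⥤ B) [F.Additive] (n : ℤ) (K : HK C) : B := (coh0 F).obj (K⟦n⟧)

/-- The transformation `H⁰(F(K)) → H⁰(G(K))` given by `η : F → G`. -/
noncomputable def coh0Map {F G : C ⥤ B} [F.Additive] [G.Additive] (η : F ⟶ G) :
    coh0 F ⟶ coh0 G :=
  Functor.whiskerRight (NatTrans.mapHomotopyCategory η (ComplexShape.up ℤ))
    (HomotopyCategory.homologyFunctor B (ComplexShape.up ℤ) 0)

/-- The map `Hⁿ(F(K)) → Hⁿ(G(K))` given by `η : F → G`. -/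
noncomputable def cohMap {F G : C ⥤ B} [F.Additive] [G.Additive] (η : F ⟶ G) (n : ℤ) (K : HK C) :
    coh F n K ⟶ coh G n K := (coh0Map η).app (K⟦n⟧)

instance (F : C ⥤ B) [F.Additive] : (coh0 F).IsHomological := by
  unfold coh0
  infer_instance

/-- The complex `F(K)`. -/
noncomputable abbrev fc (F : C ⥤ B) [F.Additive] (K : CochainComplex C ℤ) : CochainComplex B ℤ :=
  (F.mapHomologicalComplex (ComplexShape.up ℤ)).obj K

/-- `K[n]` for a complex and for its class. -/
noncomputable def shiftHK (K : CochainComplex C ℤ) (n : ℤ) :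
    (toHK K)⟦n⟧ ≅ toHK (K⟦n⟧) :=
  (((HomotopyCategory.quotient C (ComplexShape.up ℤ)).commShiftIso n).app K).symm

omit [HasZeroObject C] [HasBinaryBiproducts C] [Abelian B] in
lemma aux1 {a b c d a' a'' : B} {f : a ⟶ b} {g : b ⟶ c} (s : c ⟶ d) {f' : a ⟶ a'} {u : a' ⟶ c}
    {t : a' ⟶ a''} {t' : a'' ⟶ a'} (h : f' ≫ u = f ≫ g) (ht : t ≫ t' = 𝟙 _) :
    f ≫ g ≫ s = (f' ≫ t) ≫ t' ≫ u ≫ s := by
  rw [Category.assoc, ← Category.assoc t, ht, Category.id_comp, ← Category.assoc, ← h,
    Category.assoc]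

lemma aux2 {X0 X1 X2 X3 Y0 Y1 Y2 Y3 : B} {a : X0 ⟶ Y0} {α1 : X0 ≅ X1} {α2 : X1 ≅ X2} {α3 : X2 ≅ X3}
    {β1 : Y0 ≅ Y1} {β2 : Y1 ≅ Y2} {β3 : Y2 ≅ Y3} {f1 : X1 ⟶ Y1} {f2 : X2 ⟶ Y2} {f3 : X3 ⟶ Y3}
    (h1 : a ≫ β1.hom = α1.hom ≫ f1) (h2 : f1 ≫ β2.hom = α2.hom ≫ f2)
    (h3 : f2 ≫ β3.hom = α3.hom ≫ f3) :
    a ≫ (β1 ≪≫ β2 ≪≫ β3).hom = (α1 ≪≫ α2 ≪≫ α3).hom ≫ f3 := by
  simp only [Iso.trans_hom, Category.assoc]
  rw [← h3, ← Category.assoc a, h1, Category.assoc, ← Category.assoc f1, h2, Category.assoc]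

/-- The cohomology of the complex `F(K)`. -/
noncomputable def cohObj (F : C ⥤ B) [F.Additive] (K : CochainComplex C ℤ) :
    (coh0 F).obj (toHK K) ≅ (fc F K).homology 0 :=
  (HomotopyCategory.homologyFunctorFactors B (ComplexShape.up ℤ) 0).app (fc F K)

lemma cohObj_map {F G : C ⥤ B} [F.Additive] [G.Additive] (η : F ⟶ G) (K : CochainComplex C ℤ) :
    (coh0Map η).app (toHK K) ≫ (cohObj G K).hom = (cohObj F K).hom ≫
      (HomologicalComplex.homologyFunctor B (ComplexShape.up ℤ) 0).map
        ((NatTrans.mapHomologicalComplex η (ComplexShape.up ℤ)).app K) :=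
  (HomotopyCategory.homologyFunctorFactors B (ComplexShape.up ℤ) 0).hom.naturality
    ((NatTrans.mapHomologicalComplex η (ComplexShape.up ℤ)).app K)

lemma single_map {F G : C ⥤ B} [F.Additive] [G.Additive] (η : F ⟶ G) (M : C) :
    (NatTrans.mapHomologicalComplex η (ComplexShape.up ℤ)).app
      ((HomologicalComplex.single C (ComplexShape.up ℤ) 0).obj M) ≫
      ((HomologicalComplex.singleMapHomologicalComplex G (ComplexShape.up ℤ) 0).app M).hom =
      ((HomologicalComplex.singleMapHomologicalComplex F (ComplexShape.up ℤ) 0).app M).hom ≫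
      (HomologicalComplex.single B (ComplexShape.up ℤ) 0).map (η.app M) := by
  ext i
  by_cases h : i = 0
  · subst h
    simp only [HomologicalComplex.comp_f, NatTrans.mapHomologicalComplex_app_f, Iso.app_hom,
      HomologicalComplex.singleMapHomologicalComplex_hom_app_self,
      HomologicalComplex.single_map_f_self]
    exact aux1 _ (η.naturality (HomologicalComplex.singleObjXSelf (ComplexShape.up ℤ) 0 M).hom)
      (HomologicalComplex.singleObjXSelf (ComplexShape.up ℤ) 0 (F.obj M)).inv_hom_id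
  · exact (HomologicalComplex.isZero_single_obj_X (ComplexShape.up ℤ) 0 _ _ h).eq_of_tgt _ _

/-- The cohomology of an object in degree zero. -/
noncomputable def cohZero (F : C ⥤ B) [F.Additive] (M : C) : (coh0 F).obj (inZero M) ≅ F.obj M :=
  cohObj F ((HomologicalComplex.single C (ComplexShape.up ℤ) 0).obj M) ≪≫
  (HomologicalComplex.homologyFunctor B (ComplexShape.up ℤ) 0).mapIso
    ((HomologicalComplex.singleMapHomologicalComplex F (ComplexShape.up ℤ) 0).app M) ≪≫
  (HomologicalComplex.homologyFunctorSingleIso B (ComplexShape.up ℤ) 0).app (F.obj M)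

lemma cohZero_map {F G : C ⥤ B} [F.Additive] [G.Additive] (η : F ⟶ G) (M : C) :
    (coh0Map η).app (inZero M) ≫ (cohZero G M).hom = (cohZero F M).hom ≫ η.app M := by
  have h2 := congrArg (HomologicalComplex.homologyFunctor B (ComplexShape.up ℤ) 0).map
    (single_map η M)
  rw [Functor.map_comp, Functor.map_comp] at h2
  exact aux2 (cohObj_map η ((HomologicalComplex.single C (ComplexShape.up ℤ) 0).obj M)) h2
    ((HomologicalComplex.homologyFunctorSingleIso B (ComplexShape.up ℤ) 0).hom.naturality (η.app M))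

/-- The functor `Hⁿ(F(-))`. -/
lemma coh_iso (F : C ⥤ B) [F.Additive] (n : ℤ) {K L : HK C} (e : Nonempty (K ≅ L)) :
    Nonempty (coh F n K ≅ coh F n L) := by
  obtain ⟨e⟩ := e
  exact ⟨(shiftFunctor (HK C) n ⋙ coh0 F).mapIso e⟩

lemma coh_summand (F : C ⥤ B) [F.Additive] (n : ℤ) {K L : HK C} (h : Q282.UM.IsSummand K L) :
    Q282.UM.IsSummand (coh F n K) (coh F n L) :=
  h.map (shiftFunctor (HK C) n ⋙ coh0 F)

lemma coh_shift (F : C ⥤ B) [F.Additive] (m n : ℤ) (K : HK C) :
    Nonempty (coh F n (K⟦m⟧) ≅ coh F (m + n) K) :=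
  ⟨(coh0 F).mapIso ((shiftFunctorAdd (HK C) m n).app K).symm⟩

lemma coh_single (F : C ⥤ B) [F.Additive] (M : C) : Nonempty (coh F 0 (inZero M) ≅ F.obj M) :=
  ⟨(coh0 F).mapIso ((shiftFunctorZero (HK C) ℤ).app (inZero M)) ≪≫ cohZero F M⟩

/-- The exact sequence `Hⁿ(F(T₁)) → Hⁿ(F(T₂)) → Hⁿ(F(T₃))`. -/
lemma coh_exact (F : C ⥤ B) [F.Additive] (n : ℤ) {T : Pretriangulated.Triangle (HK C)}
    (hT : T ∈ Pretriangulated.distinguishedTriangles (C := HK C)) :
    ∃ S : ShortComplex B, S.Exact ∧ S.X₁ = coh F n T.obj₁ ∧ S.X₂ = coh F n T.obj₂ ∧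
      S.X₃ = coh F n T.obj₃ :=
  ⟨_, (coh0 F).map_distinguished_exact _ (Pretriangulated.Triangle.shift_distinguished T hT n),
    rfl, rfl, rfl⟩

end

section

variable {C : Type u} [Category.{v} C] [Preadditive C] [HasZeroObject C] [HasBinaryBiproducts C]
  [HasFiniteBiproducts C]

lemma of_biproduct {Q : C → Prop} (hs : ∀ {M N : C}, Q282.UM.IsSummand M N → Q N → Q M)
    (h0 : ∀ M : C, IsZero M → Q M) (h2 : ∀ M N : C, Q M → Q N → Q (M ⊞ N)) :
    ∀ {r : ℕ} (M : Fin r → C), (∀ i, Q (M i)) → Q (⨁ M) := by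
  intro r
  induction r with
  | zero =>
    intro M _
    apply h0
    rw [IsZero.iff_id_eq_zero, ← biproduct.total, Finset.univ_eq_empty, Finset.sum_empty]
  | succ r ih =>
    intro M hM
    refine hs ?_ (h2 _ _ (hM 0) (ih (fun i => M i.succ) fun i => hM i.succ))
    refine ⟨biprod.lift (biproduct.π M 0) (biproduct.lift fun i => biproduct.π M i.succ),
      biprod.desc (biproduct.ι M 0) (biproduct.desc fun i => biproduct.ι M i.succ), ?_⟩
    rw [biprod.lift_desc, biproduct.lift_desc, ← biproduct.total, Fin.sum_univ_succ]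

variable {B : Type u'} [Category.{v'} B] [Abelian B]

/-- All cohomology objects of the complex `F(K)` belong to `S`. -/
def CohIn (F : C ⥤ B) [F.Additive] (S : ObjectProperty B) (K : HK C) : Prop :=
  ∀ n : ℤ, S (coh F n K)

lemma serre_summand (S : ObjectProperty B) [S.IsSerreClass] {M N : B}
    (h : Q282.UM.IsSummand M N) (hN : S N) : S M := by
  obtain ⟨s, r, e⟩ := h
  have := (SplitMono.mk r e).mono
  exact S.prop_of_mono s hN

/-- Serre classes. -/
theorem ext_serre (F : C ⥤ B) [F.Additive] (S : ObjectProperty B) [S.IsSerreClass] :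
    IsExtension (fun M : C => S (F.obj M)) (CohIn F S) where
  iso e h n := by
    obtain ⟨e⟩ := coh_iso F n e
    exact S.prop_of_iso e (h n)
  shift K m h n := by
    obtain ⟨e⟩ := coh_shift F m n K
    exact S.prop_of_iso e.symm (h (m + n))
  summand hs h n := serre_summand S (coh_summand F n hs) (h n)
  triangle T hT h1 h3 n := by
    obtain ⟨S', hS, e1, e2, e3⟩ := coh_exact F n hT
    have h4 := h1 n
    have h5 := h3 n
    rw [← e1] at h4
    rw [← e3] at h5
    rw [← e2]
    exact S.prop_X₂_of_exact hS h4 h5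
  of_terms K hK n := by
    have e : coh F n (toHK K) ≅ (fc F (K⟦n⟧)).homology 0 :=
      (coh0 F).mapIso (shiftHK K n) ≪≫ cohObj F (K⟦n⟧)
    refine S.prop_of_iso e.symm ?_
    have h1 : S ((fc F (K⟦n⟧)).X 0) := hK (0 + n)
    exact S.prop_of_epi ((fc F (K⟦n⟧)).homologyπ 0) (S.prop_of_mono ((fc F (K⟦n⟧)).iCycles 0) h1)
  to_object M h := by
    obtain ⟨e⟩ := coh_single F M
    exact S.prop_of_iso e (h 0)
  object_summand hs h := serre_summand S (hs.map F) h
  object_sum := by
    refine of_biproduct (fun hs h => serre_summand S (hs.map F) h) ?_ ?_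
    · intro M hM
      exact S.prop_of_isZero (F.map_isZero hM)
    · intro M N hM hN
      exact S.prop_X₂_of_exact
        ((ShortComplex.Splitting.ofHasBinaryBiproduct M N).map F).exact hM hN

/-- The map `Hⁿ(F(K)) → Hⁿ(G(K))` is an isomorphism for all `n`. -/
def CohIso {F G : C ⥤ B} [F.Additive] [G.Additive] (η : F ⟶ G) (K : HK C) : Prop :=
  ∀ n : ℤ, IsIso (cohMap η n K)

omit [HasZeroObject C] [HasBinaryBiproducts C] [HasFiniteBiproducts C] in
lemma isIso_of_iso {F G : HK C ⥤ B} (α : F ⟶ G) {K L : HK C} (e : K ≅ L) (h : IsIso (α.app K)) :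
    IsIso (α.app L) := by
  have h1 := α.naturality e.inv
  have h2 : α.app L = F.map e.inv ≫ α.app K ≫ G.map e.hom := by
    rw [← Category.assoc, h1, Category.assoc, ← G.map_comp, e.inv_hom_id, G.map_id,
      Category.comp_id]
  rw [h2]
  infer_instance

lemma isIso_summand {D : Type*} [Category D] {F G : D ⥤ B} (α : F ⟶ G) {K L : D}
    (hs : Q282.UM.IsSummand K L) (h : IsIso (α.app L)) : IsIso (α.app K) := by
  obtain ⟨s, r, e⟩ := hs
  refine ⟨G.map s ≫ inv (α.app L) ≫ F.map r, ?_, ?_⟩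
  · rw [← Category.assoc, ← α.naturality s, Category.assoc, ← Category.assoc (α.app L),
      IsIso.hom_inv_id, Category.id_comp, ← F.map_comp, e, F.map_id]
  · rw [Category.assoc, Category.assoc, α.naturality r, ← Category.assoc (inv (α.app L)),
      IsIso.inv_hom_id, Category.id_comp, ← G.map_comp, e, G.map_id]

lemma isIso_square {X0 Y0 X1 Y1 : B} {a : X0 ⟶ Y0} (α : X0 ≅ X1) (β : Y0 ≅ Y1) {f : X1 ⟶ Y1}
    (h : a ≫ β.hom = α.hom ≫ f) (hf : IsIso f) : IsIso a := by
  have h1 : a = α.hom ≫ f ≫ β.inv := by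
    rw [← Category.assoc, ← h, Category.assoc, Iso.hom_inv_id, Category.comp_id]
  rw [h1]
  infer_instance

/-- The five lemma. -/
lemma five {F G : HK C ⥤ B} [F.IsHomological] [G.IsHomological] (α : F ⟶ G)
    {T : Pretriangulated.Triangle (HK C)}
    (hT : T ∈ Pretriangulated.distinguishedTriangles (C := HK C))
    (h0 : IsIso (α.app (T.obj₃⟦(-1 : ℤ)⟧))) (h1 : IsIso (α.app T.obj₁)) (h3 : IsIso (α.app T.obj₃))
    (h4 : IsIso (α.app (T.obj₁⟦(1 : ℤ)⟧))) : IsIso (α.app T.obj₂) := by
  have e1 : ∀ {H : HK C ⥤ B} [H.IsHomological],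
      (ComposableArrows.mk₄ (H.map T.invRotate.mor₁) (H.map T.mor₁) (H.map T.mor₂)
        (H.map T.mor₃)).Exact := by
    intro H _
    apply ComposableArrows.exact_of_δ₀
    · exact (H.map_distinguished_exact _
        (Pretriangulated.inv_rot_of_distTriang _ hT)).exact_toComposableArrows
    · apply ComposableArrows.exact_of_δ₀
      · exact (H.map_distinguished_exact _ hT).exact_toComposableArrows
      · exact (H.map_distinguished_exact _
          (Pretriangulated.rot_of_distTriang _ hT)).exact_toComposableArrows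
  exact Abelian.isIso_of_epi_of_isIso_of_isIso_of_mono (e1 (H := F)) (e1 (H := G))
    (ComposableArrows.homMk₄ (α.app _) (α.app _) (α.app _) (α.app _) (α.app _)
      (α.naturality _) (α.naturality _) (α.naturality _) (α.naturality _))
      (h0.epi_of_iso) h1 h3 (h4.mono_of_iso)

/-- Isomorphisms of functors. -/
theorem ext_iso {F G : C ⥤ B} [F.Additive] [G.Additive] (η : F ⟶ G) :
    IsExtension (fun M : C => IsIso (η.app M)) (CohIso η) where
  iso e h n := by
    obtain ⟨e⟩ := e
    exact isIso_of_iso (coh0Map η) ((shiftFunctor (HK C) n).mapIso e) (h n)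
  shift K m h n :=
    isIso_of_iso (coh0Map η) ((shiftFunctorAdd (HK C) m n).app K) (h (m + n))
  summand hs h n :=
    isIso_summand (coh0Map η) (hs.map (shiftFunctor (HK C) n)) (h n)
  triangle T hT h1 h3 n := by
    refine five (coh0Map η) (Pretriangulated.Triangle.shift_distinguished T hT n) ?_ (h1 n)
      (h3 n) ?_
    · exact isIso_of_iso (coh0Map η) ((shiftFunctorAdd (HK C) n (-1)).app T.obj₃) (h3 (n + -1))
    · exact isIso_of_iso (coh0Map η) ((shiftFunctorAdd (HK C) n 1).app T.obj₁) (h1 (n + 1))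
  of_terms K hK n := by
    have h1 : IsIso ((NatTrans.mapHomologicalComplex η (ComplexShape.up ℤ)).app (K⟦n⟧)) := by
      have : ∀ i, IsIso (((NatTrans.mapHomologicalComplex η (ComplexShape.up ℤ)).app
          (K⟦n⟧)).f i) := fun i => hK (i + n)
      exact HomologicalComplex.Hom.isIso_of_components _
    have h2 : IsIso ((coh0Map η).app (toHK (K⟦n⟧))) := by
      refine isIso_square (cohObj F (K⟦n⟧)) (cohObj G (K⟦n⟧)) (cohObj_map η (K⟦n⟧)) ?_
      exact Functor.map_isIso (HomologicalComplex.homologyFunctor B (ComplexShape.up ℤ) 0)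
        ((NatTrans.mapHomologicalComplex η (ComplexShape.up ℤ)).app (K⟦n⟧))
    exact isIso_of_iso (coh0Map η) (shiftHK K n).symm h2
  to_object M h := by
    have h1 := isIso_of_iso (coh0Map η) ((shiftFunctorZero (HK C) ℤ).app (inZero M)) (h 0)
    have h2 := cohZero_map η M
    have h3 : η.app M = (cohZero F M).inv ≫ (coh0Map η).app (inZero M) ≫ (cohZero G M).hom := by
      rw [h2, Iso.inv_hom_id_assoc]
    rw [h3]
    exact IsIso.comp_isIso' inferInstance (IsIso.comp_isIso' h1 inferInstance)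
  object_summand hs h := isIso_summand η hs h
  object_sum := by
    refine of_biproduct (fun hs h => isIso_summand η hs h) ?_ ?_
    · intro M hM
      exact ⟨0, (F.map_isZero hM).eq_of_src _ _, (G.map_isZero hM).eq_of_src _ _⟩
    · intro M N hM hN
      have s := ShortComplex.Splitting.ofHasBinaryBiproduct M N
      refine ⟨G.map biprod.fst ≫ inv (η.app M) ≫ F.map biprod.inl +
        G.map biprod.snd ≫ inv (η.app N) ≫ F.map biprod.inr, ?_, ?_⟩
      · rw [Preadditive.comp_add, ← Category.assoc, ← Category.assoc (η.app (M ⊞ N)),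
          ← η.naturality, ← η.naturality, Category.assoc, Category.assoc,
          IsIso.hom_inv_id_assoc, IsIso.hom_inv_id_assoc, ← F.map_comp, ← F.map_comp,
          ← F.map_add, biprod.total, F.map_id]
      · rw [Preadditive.add_comp, Category.assoc, Category.assoc, Category.assoc, Category.assoc,
          η.naturality, η.naturality, IsIso.inv_hom_id_assoc, IsIso.inv_hom_id_assoc,
          ← G.map_comp, ← G.map_comp, ← G.map_add, biprod.total, G.map_id]

/-- Several properties. -/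
theorem ext_all {ι : Sort*} {Q : ι → C → Prop} {P : ι → HK C → Prop}
    (h : ∀ i, IsExtension (Q i) (P i)) :
    IsExtension (fun M => ∀ i, Q i M) (fun K => ∀ i, P i K) where
  iso e hK i := (h i).iso e (hK i)
  shift K m hK i := (h i).shift K m (hK i)
  summand hs hK i := (h i).summand hs (hK i)
  triangle T hT h1 h3 i := (h i).triangle T hT (h1 i) (h3 i)
  of_terms K hK i := (h i).of_terms K fun j => hK j i
  to_object M hM i := (h i).to_object M (hM i)
  object_summand hs hM i := (h i).object_summand hs (hM i)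
  object_sum M hM i := (h i).object_sum M fun j => hM j i

end

end Pool.Agent.Q282.UK
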