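import Pool.Agent.Q282.UK.Defs
import Pool.Agent.Q282.UM.Main

/-!
# Properties of weight complexes and trilinear forms
-/

set_option autoImplicit false

open CategoryTheory Limits AlgebraicGeometry MvPolynomial Pool.Agent.Y116.UV Pool.Agent.Z125.UN
  Pool.Agent.Q282.UM

namespace Pool.Agent.Q282.UK

universe v u

variable {C : Type u} [Category.{v} C] [Preadditive C]

/-- `P` is a property of complexes in the homotopy category which extends the property `Q` of objects
and is closed under isomorphisms, shifts, direct summands and extensions in triangles. -/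
structure IsExtension [HasZeroObject C] [HasBinaryBiproducts C] [HasFiniteBiproducts C]
    (Q : C → Prop) (P : HK C → Prop) : Prop where
  iso : ∀ {K L : HK C}, Nonempty (K ≅ L) → P K → P L
  shift : ∀ (K : HK C) (n : ℤ), P K → P (K⟦n⟧)
  summand : ∀ {K L : HK C}, IsSummand K L → P L → P K
  triangle : ∀ T ∈ Pretriangulated.distinguishedTriangles (C := HK C),
    P T.obj₁ → P T.obj₃ → P T.obj₂
  of_terms : ∀ K : CochainComplex C ℤ, (∀ i, Q (K.X i)) → P (toHK K)
  to_object : ∀ M : C, P (inZero M) → Q M
  object_summand : ∀ {M N : C}, IsSummand M N → Q N → Q M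
  object_sum : ∀ {r : ℕ} (M : Fin r → C), (∀ i, Q (M i)) → Q (⨁ M)

lemma isSummand_map {C' : Type*} [Category C'] {M N : C} (h : IsSummand M N) (F : C ⥤ C') :
    IsSummand (F.obj M) (F.obj N) := h.map F

/-- Twists of complexes. -/
lemma onHK_comp {F G H : C ⥤ C} [F.Additive] [G.Additive] [H.Additive] (e : H ≅ F ⋙ G)
    (K : HK C) : Nonempty (onHK H K ≅ onHK G (onHK F K)) := by
  obtain ⟨K⟩ := K
  let L : CochainComplex C ℤ := K
  refine ⟨(HomotopyCategory.quotient C (ComplexShape.up ℤ)).mapIso (X :=
    (H.mapHomologicalComplex (ComplexShape.up ℤ)).obj L) (Y :=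
    (G.mapHomologicalComplex (ComplexShape.up ℤ)).obj
      ((F.mapHomologicalComplex (ComplexShape.up ℤ)).obj L))
    (HomologicalComplex.Hom.isoOfComponents (fun i => e.app (L.X i)) ?_)⟩
  intro i j _
  exact (e.hom.naturality (L.d i j)).symm

lemma onHK_id {F : C ⥤ C} [F.Additive] (e : F ≅ 𝟭 C) (K : HK C) : Nonempty (onHK F K ≅ K) := by
  obtain ⟨K⟩ := K
  let L : CochainComplex C ℤ := K
  refine ⟨(HomotopyCategory.quotient C (ComplexShape.up ℤ)).mapIso (X :=
    (F.mapHomologicalComplex (ComplexShape.up ℤ)).obj L) (Y := L)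
    (HomologicalComplex.Hom.isoOfComponents (fun i => e.app (L.X i)) ?_)⟩
  intro i j _
  exact (e.hom.naturality (L.d i j)).symm

/-- The property `P` is true for all twists of the weight complex of `X`. -/
def AllTwists {k : Type} [Field k] (D : Weights k C) (P : HK C → Prop) (X : Sch k) : Prop :=
  ∀ n, P (onHK (D.tw n) (D.W X))

/-- All twists `h(X)(n)` of the motives of the smooth projective schemes `X` of dimension at most `N`
have the property `Q`. -/
def ForVarieties {k : Type} [Field k] (D : Weights k C) (Q : C → Prop) (N : ℕ) : Prop :=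
  ∀ X : Sch k, IsSmoothProjective X → topologicalKrullDim X.left ≤ N →
    ∀ n : ℤ, Q ((D.tw n).obj (D.h X))

/-- All twists `h(X)(n)` of the motives of the smooth projective schemes `X` have the property `Q`. -/
def ForAllVarieties {k : Type} [Field k] (D : Weights k C) (Q : C → Prop) : Prop :=
  ∀ X : Sch k, IsSmoothProjective X → ∀ n : ℤ, Q ((D.tw n).obj (D.h X))

/-- All twists `W(Y)(n)` of the weight complexes of the hypersurfaces `Y : T(x, y, z) = 1` have the
property `P`, for all trilinear forms `T` over `k` with a block of at most `N + 2` variables. -/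
def ForForms {k : Type} [Field k] (D : Weights k C) (P : HK C → Prop) (N : ℕ) : Prop :=
  ∀ (a b c : ℕ) (T : Fin a → Fin b → Fin c → k), (a ≤ N + 2 ∨ b ≤ N + 2 ∨ c ≤ N + 2) →
    AllTwists D P (hypS T)

/-- The same for all trilinear forms. -/
def ForAllForms {k : Type} [Field k] (D : Weights k C) (P : HK C → Prop) : Prop :=
  ∀ (a b c : ℕ) (T : Fin a → Fin b → Fin c → k), AllTwists D P (hypS T)

/-- The same for the hypersurfaces `Y : ∑_{(i, j, l) ∈ E} x_i y_j z_l = 1` of all finite sets `E` of
triples (tripartite hypergraphs). -/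
def ForHypergraphs {k : Type} [Field k] (D : Weights k C) (P : HK C → Prop) : Prop :=
  ∀ (a b c : ℕ) (E : Finset (Fin a × Fin b × Fin c)), AllTwists D P (tripS k E)

section

variable [HasZeroObject C] [HasBinaryBiproducts C] [HasFiniteBiproducts C] {k : Type} [Field k]
  {D : Weights k C} {Q : C → Prop} {P : HK C → Prop}

lemma tri_mid (hP : IsExtension Q P) {K L M : HK C} (h : IsDistinguished K L M) (hK : P K)
    (hM : P M) : P L := by
  obtain ⟨a, b, d, h⟩ := h
  exact hP.triangle _ h hK hM

lemma unshift (hP : IsExtension Q P) {K : HK C} (h : P (K⟦(1 : ℤ)⟧)) : P K :=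
  hP.iso ⟨shiftShiftNeg K (1 : ℤ)⟩ (hP.shift _ (-1) h)

lemma tri_right (hP : IsExtension Q P) {K L M : HK C} (h : IsDistinguished K L M) (hK : P K)
    (hL : P L) : P M := by
  obtain ⟨a, b, d, h⟩ := h
  exact hP.triangle _ (Pretriangulated.rot_of_distTriang _ h) hL (hP.shift _ 1 hK)

lemma tri_left (hP : IsExtension Q P) {K L M : HK C} (h : IsDistinguished K L M) (hL : P L)
    (hM : P M) : P K := by
  obtain ⟨a, b, d, h⟩ := h
  exact hP.triangle _ (Pretriangulated.inv_rot_of_distTriang _ h) (hP.shift _ (-1) hM) hL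

/-- Functors preserve distinguished triangles. -/
lemma onHK_triangle (F : C ⥤ C) [F.Additive] {K L M : HK C} (h : IsDistinguished K L M) :
    IsDistinguished (onHK F K) (onHK F L) (onHK F M) := by
  obtain ⟨a, b, d, h⟩ := h
  exact ⟨_, _, _, (F.mapHomotopyCategory (ComplexShape.up ℤ)).map_distinguished _ h⟩

lemma all_iso (hP : IsExtension Q P) {X Y : Sch k} (e : Nonempty (D.W X ≅ D.W Y))
    (h : AllTwists D P X) : AllTwists D P Y := by
  obtain ⟨e⟩ := e
  exact fun n => hP.iso ⟨((D.tw n).mapHomotopyCategory (ComplexShape.up ℤ)).mapIso e⟩ (h n)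

lemma all_twist (hD : IsWeights D) (hP : IsExtension Q P) {X Y : Sch k} {m : ℤ}
    (e : Nonempty (D.W X ≅ onHK (D.tw m) (D.W Y))) : AllTwists D P X ↔ AllTwists D P Y := by
  obtain ⟨e⟩ := e
  have h1 : ∀ n, Nonempty (onHK (D.tw n) (D.W X) ≅ onHK (D.tw (m + n)) (D.W Y)) := by
    intro n
    obtain ⟨e1⟩ := hD.tw_add m n
    obtain ⟨e2⟩ := onHK_comp e1 (D.W Y)
    exact ⟨((D.tw n).mapHomotopyCategory (ComplexShape.up ℤ)).mapIso e ≪≫ e2.symm⟩
  constructor
  · intro h n
    have h2 := h1 (n - m)
    rw [add_sub_cancel] at h2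
    exact hP.iso h2 (h (n - m))
  · intro h n
    exact hP.iso ⟨(h1 n).some.symm⟩ (h (m + n))

lemma all_laurent (hD : IsWeights D) (hP : IsExtension Q P) {B : Type} [CommRing B] [Algebra k B]
    [Algebra.FiniteType k B] (h : AllTwists D P (aff k (LaurentPolynomial B))) :
    AllTwists D P (aff k B) := by
  intro n
  have h1 := hD.torus B
  have h2 : IsSummand (onHK (D.tw (n + 1)) (onHK (D.tw (-1)) (D.W (aff k B))))
      (onHK (D.tw (n + 1)) (D.W (torS k B))) :=
    h1.map ((D.tw (n + 1)).mapHomotopyCategory (ComplexShape.up ℤ))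
  have h3 := hP.summand h2 (h (n + 1))
  obtain ⟨e1⟩ := hD.tw_add (-1) (n + 1)
  obtain ⟨e2⟩ := onHK_comp e1 (D.W (aff k B))
  have h4 := hP.iso ⟨e2.symm⟩ h3
  rw [show (-1 : ℤ) + (n + 1) = n by ring] at h4
  exact h4

lemma all_space (hD : IsWeights D) (hP : IsExtension Q P) (hp : AllTwists D P (aff k k)) (n : ℕ) :
    AllTwists D P (aff k (MvPolynomial (Fin n) k)) := by
  have h2 := hD.bundle k (n + 1) (f1 k n) (aff k k) (𝟙 _) ⟨inferInstance, range_id n⟩
  have h3 : AllTwists D P (jouS (f1 k n)) := (all_twist hD hP h2).mpr hp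
  exact all_iso hP (hD.iso (ft_aff True) ⟨(affIso (jouOne k n)).symm⟩) h3

/-- The hypersurface `x y z = 1` and the point. -/
lemma all_point (hD : IsWeights D) (hP : IsExtension Q P) (h : AllTwists D P (hypS (one3 k))) :
    AllTwists D P (aff k k) := by
  have h1 := ft_laurent (R := k) k
  have h2 := ft_laurent (R := k) (LaurentPolynomial k)
  refine all_laurent hD hP (all_laurent hD hP ?_)
  exact all_iso hP (hD.iso (ft_aff True) ⟨(affIso (cubeE k)).symm⟩) h

/-- The closure properties. -/
theorem bnd_all (hD : IsWeights D) (hP : IsExtension Q P) (hp : AllTwists D P (aff k k)) :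
    Bnd True fun X : Sch k => AllTwists D P X where
  iso hX e h := all_iso hP (hD.iso hX e) h
  total i j h ht hZ hU n :=
    tri_mid hP (onHK_triangle (D.tw n) (hD.triangle i j h ht)) (hU n) (hZ n)
  opened i j h ht hZ hX n :=
    tri_left hP (onHK_triangle (D.tw n) (hD.triangle i j h ht)) (hX n) (hZ n)
  closed i j h ht hX hU n :=
    tri_right hP (onHK_triangle (D.tw n) (hD.triangle i j h ht)) (hU n) (hX n)
  space := all_space hD hP hp
  jouanolou B _ _ _ m f U j hj hr h := (all_twist hD hP (hD.bundle B m f U j ⟨hj, hr⟩)).mp h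
  torus B _ _ _ h := all_laurent hD hP h
  bundle B _ _ _ m f U j hj hr h := (all_twist hD hP (hD.bundle B m f U j ⟨hj, hr⟩)).mpr h

/-- From smooth projective schemes to all schemes. -/
theorem all_of_projective (hD : IsWeights D) (hP : IsExtension Q P) {N : ℕ}
    (h : ForVarieties D Q N) (X : Sch k) (hX : FT True X)
    (hN : topologicalKrullDim X.left ≤ N) : AllTwists D P X := by
  intro n
  obtain ⟨K, ⟨e⟩, hK⟩ := hD.pieces X hX N hN
  refine hP.iso ⟨((D.tw n).mapHomotopyCategory (ComplexShape.up ℤ)).mapIso e.symm⟩ ?_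
  change P (toHK (((D.tw n).mapHomologicalComplex (ComplexShape.up ℤ)).obj K))
  refine hP.of_terms _ fun i => ?_
  obtain ⟨r, Y, m, h1, h2⟩ := hK i
  change Q ((D.tw n).obj (K.X i))
  refine hP.object_summand (h2.map (D.tw n)) ?_
  have h3 : Q (⨁ fun i => (D.tw n).obj ((D.tw (m i)).obj (D.h (Y i)))) := by
    refine hP.object_sum _ fun i => ?_
    obtain ⟨e⟩ := hD.tw_add (m i) n
    exact hP.object_summand (IsSummand.of_iso (e.app (D.h (Y i))).symm)
      (h (Y i) (h1 i).1 (h1 i).2 (m i + n))
  refine hP.object_summand ?_ h3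
  refine ⟨biproduct.lift fun i => (D.tw n).map
      (biproduct.π (fun i => (D.tw (m i)).obj (D.h (Y i))) i),
    biproduct.desc fun i => (D.tw n).map
      (biproduct.ι (fun i => (D.tw (m i)).obj (D.h (Y i))) i), ?_⟩
  rw [biproduct.lift_desc]
  simp only [← Functor.map_comp]
  rw [← Functor.map_sum, biproduct.total, CategoryTheory.Functor.map_id]

lemma of_inZero (hP : IsExtension Q P) {n : ℤ} {M : C} {K : HK C} (e : Nonempty (K ≅ inZero M))
    (h : P (onHK (D.tw n) K)) : Q ((D.tw n).obj M) := by
  obtain ⟨e⟩ := e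
  refine hP.to_object _ (hP.iso ⟨((D.tw n).mapHomotopyCategory (ComplexShape.up ℤ)).mapIso e ≪≫ ?_⟩ h)
  exact (HomotopyCategory.quotient C (ComplexShape.up ℤ)).mapIso
    ((HomologicalComplex.singleMapHomologicalComplex (D.tw n) (ComplexShape.up ℤ) 0).app M)

/-- **Universality of trilinear forms for weight complexes.** -/
theorem forms_dim [PerfectField k] (hD : IsWeights D) (hP : IsExtension Q P) (N : ℕ) :
    ForVarieties D Q N ↔ ForForms D P N := by
  constructor
  · intro h
    have hall := all_of_projective hD hP h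
    have hp : AllTwists D P (aff k k) := by
      refine hall _ (ft_aff True) ?_
      rw [topDim_aff, ringKrullDim_eq_zero_of_field]
      exact_mod_cast Nat.zero_le N
    have hB := bnd_all hD hP hp
    have h2 : ∀ I : Ideal (MvPolynomial (Fin (N + 1)) k),
        AllTwists D P (aff k (MvPolynomial (Fin (N + 1)) k ⧸ I)) :=
      dim_to_closed hB fun B _ _ _ hA => hall _ (ft_aff True) (by rw [topDim_aff]; exact hA)
    intro a b c T hm
    exact of_block hB (fun a b c' hc' T => to_tri hB h2 a b c' hc' T) T hm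
  · intro h X hX hN n
    have hp : AllTwists D P (aff k k) := all_point hD hP (h 1 1 1 (one3 k) (Or.inl (by omega)))
    have hB := bnd_all hD hP hp
    have h3 := (dim_tri hB N).mpr (fun a b T => h a b (N + 2) T (Or.inr (Or.inr le_rfl))) X
    exact of_inZero hP (hD.projective X hX) (h3 (ft_projective hX) hN n)

theorem forms_set (hD : IsWeights D) (hP : IsExtension Q P) {S : Set k} (h0 : 0 ∈ S) (h1 : 1 ∈ S)
    (hS : Presents S) : ForAllVarieties D Q ↔
      ∀ (a b c : ℕ) (T : Fin a → Fin b → Fin c → k), (∀ i j l, T i j l ∈ S) →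
        AllTwists D P (hypS T) := by
  constructor
  · intro h a b c T _
    obtain ⟨N, hN⟩ := dim_hypS T
    exact all_of_projective hD hP (fun X hX _ => h X hX) _ (ft_aff True) hN
  · intro h X hX n
    have hp : AllTwists D P (aff k k) := all_point hD hP (h 1 1 1 (one3 k) fun _ _ _ => h1)
    have hB := bnd_all hD hP hp
    exact of_inZero hP (hD.projective X hX)
      (universal hB.toUni h0 h1 h hS X (ft_projective hX) n)

/-- All trilinear forms. -/
theorem forms_all (hD : IsWeights D) (hP : IsExtension Q P) :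
    ForAllVarieties D Q ↔ ForAllForms D P := by
  rw [forms_set hD hP (Set.mem_univ 0) (Set.mem_univ 1) presents_univ]
  exact ⟨fun h a b c T => h a b c T fun _ _ _ => trivial, fun h a b c T _ => h a b c T⟩

/-- Tripartite hypergraphs. -/
theorem forms_graph (hk : Presents ({0, 1} : Set k)) (hD : IsWeights D) (hP : IsExtension Q P) :
    ForAllVarieties D Q ↔ ForHypergraphs D P := by
  classical
  rw [forms_set hD hP (Or.inl rfl) (Or.inr rfl) hk]
  constructor
  · intro h a b c E
    have h1 := h a b c (fun i j l => if (i, j, l) ∈ E then (1 : k) else 0) (by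
      intro i j l
      by_cases h2 : (i, j, l) ∈ E
      · exact Or.inr (if_pos h2)
      · exact Or.inl (if_neg h2))
    have h3 : hypS (fun i j l => if (i, j, l) ∈ E then (1 : k) else 0) = tripS k E := by
      unfold hypS tripS Hyp Trip
      rw [tri_ind]
    rw [h3] at h1
    exact h1
  · intro h a b c T hT
    let E : Finset (Fin a × Fin b × Fin c) := Finset.univ.filter fun e => T e.1 e.2.1 e.2.2 = 1
    have h1 : T = fun i j l => if (i, j, l) ∈ E then (1 : k) else 0 := by
      funext i j l
      have hm : (i, j, l) ∈ E ↔ T i j l = 1 := by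
        rw [Finset.mem_filter]
        exact ⟨fun h => h.2, fun h => ⟨Finset.mem_univ _, h⟩⟩
      by_cases h : T i j l = 1
      · rw [if_pos (hm.mpr h), h]
      · rw [if_neg fun h2 => h (hm.mp h2)]
        rcases hT i j l with h2 | h2
        · exact h2
        · exact absurd h2 h
    have h3 : hypS T = tripS k E := by
      rw [h1]
      unfold hypS tripS Hyp Trip
      rw [tri_ind]
    rw [h3]
    exact h a b c E

/-- Over the field of rational numbers. -/
theorem forms_rat {D : Weights ℚ C} (hD : IsWeights D) (hP : IsExtension Q P) :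
    ForAllVarieties D Q ↔ ForHypergraphs D P :=
  forms_graph presents_rat hD hP

/-- Over prime fields. -/
theorem forms_prime {p : ℕ} [Fact p.Prime] {D : Weights (ZMod p) C} (hD : IsWeights D)
    (hP : IsExtension Q P) : ForAllVarieties D Q ↔ ForHypergraphs D P :=
  forms_graph (presents_zero_one ZMod.intCast_surjective) hD hP

end

end Pool.Agent.Q282.UK
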