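import Pool.Agent.Q282.UK.Eff

/-!
# Direct summands of complexes whose terms have a given property
-/

set_option autoImplicit false

open CategoryTheory Limits Pretriangulated Pool.Agent.Q282.UM

namespace Pool.Agent.Q282.UK

universe v u

section

variable {C : Type u} [Category.{v} C] [Preadditive C]

/-- The property `Q` of objects is true for the zero objects, and it is closed under direct summands
and under the sum of two objects. -/
structure IsThick [HasBinaryBiproducts C] (Q : C → Prop) : Prop where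
  summand : ∀ {M N : C}, IsSummand M N → Q N → Q M
  zero : ∀ M : C, IsZero M → Q M
  sum : ∀ M N : C, Q M → Q N → Q (M ⊞ N)

/-- In the homotopy category, `K` is a direct summand of a complex all of whose terms have the
property `Q`. -/
def TermsIn (Q : C → Prop) (K : HK C) : Prop :=
  ∃ L : CochainComplex C ℤ, (∀ i, Q (L.X i)) ∧ IsSummand K (toHK L)

variable [HasZeroObject C] [HasBinaryBiproducts C] {Q : C → Prop}

/-- The mapping cone. -/
lemma terms_cone (hQ : IsThick Q) {K L : CochainComplex C ℤ} (φ : K ⟶ L) (hK : ∀ i, Q (K.X i))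
    (hL : ∀ i, Q (L.X i)) (i : ℤ) : Q ((CochainComplex.mappingCone φ).X i) :=
  hQ.summand (IsSummand.of_iso (HomologicalComplex.homotopyCofiber.XIsoBiprod φ i (i + 1) rfl))
    (hQ.sum _ _ (hK (i + 1)) (hL i))

/-- Retracts and cones. -/
lemma retract_cone {T T' : Triangle (HK C)} (hT : T ∈ distTriang (HK C))
    (hT' : T' ∈ distTriang (HK C)) (s₁ : T.obj₁ ⟶ T'.obj₁) (r₁ : T'.obj₁ ⟶ T.obj₁)
    (s₂ : T.obj₂ ⟶ T'.obj₂) (r₂ : T'.obj₂ ⟶ T.obj₂) (h₁ : s₁ ≫ r₁ = 𝟙 _) (h₂ : s₂ ≫ r₂ = 𝟙 _)
    (h : T'.mor₁ = r₁ ≫ T.mor₁ ≫ s₂) : IsSummand T.obj₃ T'.obj₃ := by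
  have c1 : T.mor₁ ≫ s₂ = s₁ ≫ T'.mor₁ := by rw [h, ← Category.assoc, h₁, Category.id_comp]
  have c2 : T'.mor₁ ≫ r₂ = r₁ ≫ T.mor₁ := by
    rw [h, Category.assoc, Category.assoc, h₂, Category.comp_id]
  obtain ⟨s₃, a1, a2⟩ := Pretriangulated.complete_distinguished_triangle_morphism T T' hT hT' s₁ s₂ c1
  obtain ⟨r₃, b1, b2⟩ := Pretriangulated.complete_distinguished_triangle_morphism T' T hT' hT r₁ r₂ c2
  let α : T ⟶ T' := { hom₁ := s₁, hom₂ := s₂, hom₃ := s₃, comm₁ := c1, comm₂ := a1, comm₃ := a2 }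
  let β : T' ⟶ T := { hom₁ := r₁, hom₂ := r₂, hom₃ := r₃, comm₁ := c2, comm₂ := b1, comm₃ := b2 }
  have i1 : IsIso (α ≫ β).hom₁ := by
    change IsIso (s₁ ≫ r₁)
    rw [h₁]
    infer_instance
  have i2 : IsIso (α ≫ β).hom₂ := by
    change IsIso (s₂ ≫ r₂)
    rw [h₂]
    infer_instance
  have i3 : IsIso (s₃ ≫ r₃) := isIso₃_of_isIso₁₂ (α ≫ β) hT hT i1 i2
  exact ⟨s₃, r₃ ≫ inv (s₃ ≫ r₃), by rw [← Category.assoc, IsIso.hom_inv_id]⟩

lemma terms_third (hQ : IsThick Q) {T : Triangle (HK C)} (hT : T ∈ distTriang (HK C))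
    (h1 : TermsIn Q T.obj₁) (h2 : TermsIn Q T.obj₂) : TermsIn Q T.obj₃ := by
  obtain ⟨K, hK, s₁, r₁, e₁⟩ := h1
  obtain ⟨L, hL, s₂, r₂, e₂⟩ := h2
  obtain ⟨φ, hφ⟩ := (HomotopyCategory.quotient C (ComplexShape.up ℤ)).map_surjective
    (r₁ ≫ T.mor₁ ≫ s₂ : toHK K ⟶ toHK L)
  refine ⟨CochainComplex.mappingCone φ, terms_cone hQ φ hK hL, ?_⟩
  exact retract_cone hT (HomotopyCategory.mappingCone_triangleh_distinguished φ) s₁ r₁ s₂ r₂ e₁ e₂ hφ

lemma terms_shift (K : HK C) (n : ℤ) (h : TermsIn Q K) : TermsIn Q (K⟦n⟧) := by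
  obtain ⟨L, hL, h⟩ := h
  refine ⟨L⟦n⟧, fun i => hL (i + n), ?_⟩
  exact (h.map (shiftFunctor (HK C) n)).trans (IsSummand.of_iso (shiftHK L n))

lemma terms_summand {K L : HK C} (hs : IsSummand K L) (h : TermsIn Q L) : TermsIn Q K := by
  obtain ⟨G, hG, h⟩ := h
  exact ⟨G, hG, hs.trans h⟩

/-- An object in degree zero. -/
lemma terms_object (hQ : IsThick Q) (M : C) (h : TermsIn Q (inZero M)) : Q M := by
  obtain ⟨L, hL, s, r, e⟩ := h
  obtain ⟨s', hs⟩ := (HomotopyCategory.quotient C (ComplexShape.up ℤ)).map_surjective s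
  obtain ⟨r', hr⟩ := (HomotopyCategory.quotient C (ComplexShape.up ℤ)).map_surjective r
  have h1 : (HomotopyCategory.quotient C (ComplexShape.up ℤ)).map (s' ≫ r') =
      (HomotopyCategory.quotient C (ComplexShape.up ℤ)).map (𝟙 _) := by
    rw [Functor.map_comp, hs, hr]
    exact e.trans (CategoryTheory.Functor.map_id _ _).symm
  have H := HomotopyCategory.homotopyOfEq _ _ h1
  have h2 := H.comm 0
  rw [dNext_eq H.hom (show (ComplexShape.up ℤ).Rel 0 1 from rfl),
    prevD_eq H.hom (show (ComplexShape.up ℤ).Rel (-1) 0 from rfl)] at h2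
  have z1 : ((HomologicalComplex.single C (ComplexShape.up ℤ) 0).obj M).d 0 1 = 0 :=
    (HomologicalComplex.isZero_single_obj_X (ComplexShape.up ℤ) 0 M 1 (by decide)).eq_of_tgt _ _
  have z2 : ((HomologicalComplex.single C (ComplexShape.up ℤ) 0).obj M).d (-1) 0 = 0 :=
    (HomologicalComplex.isZero_single_obj_X (ComplexShape.up ℤ) 0 M (-1) (by decide)).eq_of_src _ _
  rw [z1, z2, zero_comp, comp_zero, zero_add, zero_add] at h2
  have h3 : IsSummand (((HomologicalComplex.single C (ComplexShape.up ℤ) 0).obj M).X 0) (L.X 0) :=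
    ⟨s'.f 0, r'.f 0, h2⟩
  exact hQ.summand ((IsSummand.of_iso
    (HomologicalComplex.singleObjXSelf (ComplexShape.up ℤ) 0 M).symm).trans h3) (hL 0)

variable [HasFiniteBiproducts C]

/-- Every property closed under sums and direct summands extends to complexes. -/
theorem ext_terms (hQ : IsThick Q) : IsExtension Q (TermsIn Q) where
  iso e h := terms_summand (IsSummand.of_iso e.some.symm) h
  shift K n h := terms_shift K n h
  summand hs h := terms_summand hs h
  triangle T hT h1 h3 := terms_third hQ (inv_rot_of_distTriang _ hT) (terms_shift _ _ h3) h1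
  of_terms K hK := ⟨K, hK, IsSummand.refl _⟩
  to_object M h := terms_object hQ M h
  object_summand hs h := hQ.summand hs h
  object_sum := of_biproduct (fun hs h => hQ.summand hs h) hQ.zero hQ.sum

end

section

variable {C : Type u} [Category.{v} C] [Preadditive C] [HasZeroObject C] [HasBinaryBiproducts C]
  [HasFiniteBiproducts C] {K : Type*} [Field K]

/-- Properties of natural endomorphisms of an additive functor: `α` is, on `M`, a linear combination of
endomorphisms of `M`. -/
def InSpan (H : C ⥤ ModuleCat.{0} K) (α : H ⟶ H) (M : C) : Prop :=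
  α.app M ∈ Submodule.span K (Set.range fun f : M ⟶ M => H.map f)

omit [HasZeroObject C] [HasBinaryBiproducts C] [HasFiniteBiproducts C] in
lemma span_conj (H : C ⥤ ModuleCat.{0} K) {A M : C} (a : A ⟶ M) (b : M ⟶ A)
    {x : H.obj M ⟶ H.obj M} (hx : x ∈ Submodule.span K (Set.range fun f : M ⟶ M => H.map f)) :
    H.map a ≫ x ≫ H.map b ∈ Submodule.span K (Set.range fun f : A ⟶ A => H.map f) := by
  induction hx using Submodule.span_induction with
  | mem x h =>
    obtain ⟨f, rfl⟩ := h
    refine Submodule.subset_span ⟨a ≫ f ≫ b, ?_⟩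
    simp only [Functor.map_comp]
  | zero =>
    rw [zero_comp, comp_zero]
    exact zero_mem _
  | add x y _ _ hx hy =>
    rw [Preadditive.add_comp, Preadditive.comp_add]
    exact add_mem hx hy
  | smul c x _ hx =>
    rw [Linear.smul_comp, Linear.comp_smul]
    exact Submodule.smul_mem _ c hx

omit [HasFiniteBiproducts C] in
/-- This property is closed under sums and direct summands. -/
theorem thick_span (H : C ⥤ ModuleCat.{0} K) (hH : H.Additive) (α : H ⟶ H) :
    IsThick (InSpan H α) where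
  summand {M N} hs hN := by
    obtain ⟨s, r, e⟩ := hs
    have h := span_conj H s r hN
    have h2 : H.map s ≫ α.app N ≫ H.map r = α.app M := by
      rw [← Category.assoc, α.naturality, Category.assoc, ← H.map_comp, e, H.map_id,
        Category.comp_id]
    rw [h2] at h
    exact h
  zero M hM := by
    have h : α.app M = 0 := (H.map_isZero hM).eq_of_src _ _
    unfold InSpan
    rw [h]
    exact zero_mem _
  sum M N hM hN := by
    have h1 := span_conj H (biprod.fst : M ⊞ N ⟶ M) biprod.inl hM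
    have h2 := span_conj H (biprod.snd : M ⊞ N ⟶ N) biprod.inr hN
    have h3 := add_mem h1 h2
    have h4 : H.map (biprod.fst : M ⊞ N ⟶ M) ≫ α.app M ≫ H.map biprod.inl +
        H.map (biprod.snd : M ⊞ N ⟶ N) ≫ α.app N ≫ H.map biprod.inr = α.app (M ⊞ N) := by
      rw [← α.naturality, ← α.naturality, ← Category.assoc, ← Category.assoc, ← H.map_comp,
        ← H.map_comp, ← Preadditive.add_comp, ← H.map_add, biprod.total, H.map_id,
        Category.id_comp]
    rw [h4] at h3
    exact h3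

/-- `α` is, on `M`, an endomorphism of `M`. -/
def IsMap (H : C ⥤ ModuleCat.{0} K) (α : H ⟶ H) (M : C) : Prop :=
  ∃ f : M ⟶ M, H.map f = α.app M

omit [HasFiniteBiproducts C] in
/-- This property is closed under sums and direct summands. -/
theorem thick_map (H : C ⥤ ModuleCat.{0} K) (hH : H.Additive) (α : H ⟶ H) :
    IsThick (IsMap H α) where
  summand {M N} hs hN := by
    obtain ⟨s, r, e⟩ := hs
    obtain ⟨f, hf⟩ := hN
    refine ⟨s ≫ f ≫ r, ?_⟩
    rw [H.map_comp, H.map_comp, hf, ← Category.assoc, α.naturality, Category.assoc,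
      ← H.map_comp, e, H.map_id, Category.comp_id]
  zero M hM := ⟨0, (H.map_isZero hM).eq_of_src _ _⟩
  sum M N hM hN := by
    obtain ⟨f, hf⟩ := hM
    obtain ⟨g, hg⟩ := hN
    refine ⟨biprod.fst ≫ f ≫ biprod.inl + biprod.snd ≫ g ≫ biprod.inr, ?_⟩
    rw [H.map_add, H.map_comp, H.map_comp, H.map_comp, H.map_comp, hf, hg, ← α.naturality,
      ← α.naturality, ← Category.assoc, ← Category.assoc, ← H.map_comp, ← H.map_comp,
      ← Preadditive.add_comp, ← H.map_add, biprod.total, H.map_id, Category.id_comp]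

omit [HasZeroObject C] [HasFiniteBiproducts C] in
theorem thick_all {ι : Sort*} {Q : ι → C → Prop} (h : ∀ i, IsThick (Q i)) :
    IsThick fun M => ∀ i, Q i M where
  summand hs hN i := (h i).summand hs (hN i)
  zero M hM i := (h i).zero M hM
  sum M N hM hN i := (h i).sum M N (hM i) (hN i)

end

end Pool.Agent.Q282.UK
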